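import Pool.Agent.N804.GM.StmS

/-! # The inequality of Jensen in a strip, from the disc -/

set_option autoImplicit false

open Filter Topology Set MeasureTheory

namespace Pool.Agent.N491.SC2

/-- the quotient -/
noncomputable def quo (w : ℂ) : ℂ := (1 + w) / (1 - w)

/-- the map of the disc onto the strip -/
noncomputable def phi (W : ℝ) (w : ℂ) : ℂ :=
  W / 2 - Complex.I * (W / Real.pi) * Complex.log (quo w)

lemma one_add_ne {w : ℂ} (hw : w ≠ -1) : 1 + w ≠ 0 := by
  intro h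
  apply hw
  linear_combination h

lemma one_sub_ne {w : ℂ} (hw : w ≠ 1) : 1 - w ≠ 0 := by
  intro h
  apply hw
  linear_combination -h

lemma quo_re {w : ℂ} (hw : w ≠ 1) : (quo w).re = (1 - ‖w‖ ^ 2) / ‖1 - w‖ ^ 2 := by
  have h1 := one_sub_ne hw
  have h2 : Complex.normSq (1 - w) ≠ 0 := (map_ne_zero _).2 h1
  unfold quo
  rw [Complex.div_re, Complex.sq_norm, Complex.sq_norm, ← add_div]
  congr 1
  rw [Complex.normSq_apply w]
  simp only [Complex.sub_re, Complex.one_re, Complex.add_re, Complex.sub_im, Complex.one_im,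
    Complex.add_im]
  ring

lemma quo_ne {w : ℂ} (hw : w ≠ 1) (hw' : w ≠ -1) : quo w ≠ 0 :=
  div_ne_zero (one_add_ne hw') (one_sub_ne hw)

lemma quo_re_nonneg {w : ℂ} (hw : w ≠ 1) (hn : ‖w‖ ≤ 1) : 0 ≤ (quo w).re := by
  rw [quo_re hw]
  have h3 : ‖w‖ ^ 2 ≤ 1 := pow_le_one₀ (norm_nonneg _) hn
  have : 0 ≤ 1 - ‖w‖ ^ 2 := by linarith
  positivity

lemma quo_slit {w : ℂ} (hw : w ≠ 1) (hw' : w ≠ -1) (hn : ‖w‖ ≤ 1) :
    quo w ∈ Complex.slitPlane := by
  rw [Complex.mem_slitPlane_iff]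
  rcases (quo_re_nonneg hw hn).lt_or_eq with h | h
  · exact Or.inl h
  · right
    intro him
    exact quo_ne hw hw' (Complex.ext h.symm him)

lemma phi_an (W : ℝ) {w : ℂ} (hw : w ≠ 1) (hw' : w ≠ -1) (hn : ‖w‖ ≤ 1) :
    AnalyticAt ℂ (phi W) w := by
  unfold phi
  refine analyticAt_const.sub (analyticAt_const.mul ?_)
  have h1 : AnalyticAt ℂ quo w := by
    unfold quo
    exact (analyticAt_const.add analyticAt_id).div (analyticAt_const.sub analyticAt_id)
      (one_sub_ne hw)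
  exact h1.clog (quo_slit hw hw' hn)

lemma phi_re (W : ℝ) (w : ℂ) :
    (phi W w).re = W / 2 + W / Real.pi * (quo w).arg := by
  have h : phi W w = ((W / 2 + W / Real.pi * (quo w).arg : ℝ) : ℂ) -
      ((W / Real.pi * Real.log ‖quo w‖ : ℝ) : ℂ) * Complex.I := by
    unfold phi
    rw [Complex.log]
    push_cast
    linear_combination (-(W / Real.pi * (quo w).arg : ℂ)) * Complex.I_sq
  rw [h]
  simp

lemma phi_im (W : ℝ) (w : ℂ) :
    (phi W w).im = -(W / Real.pi * Real.log ‖quo w‖) := by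
  have h : phi W w = ((W / 2 + W / Real.pi * (quo w).arg : ℝ) : ℂ) -
      ((W / Real.pi * Real.log ‖quo w‖ : ℝ) : ℂ) * Complex.I := by
    unfold phi
    rw [Complex.log]
    push_cast
    linear_combination (-(W / Real.pi * (quo w).arg : ℂ)) * Complex.I_sq
  rw [h]
  simp

lemma phi_re_mem {W : ℝ} (hW : 0 < W) {w : ℂ} (hw : w ≠ 1) (hn : ‖w‖ ≤ 1) :
    0 ≤ (phi W w).re ∧ (phi W w).re ≤ W := by
  have h1 := Complex.abs_arg_le_pi_div_two_iff.2 (quo_re_nonneg hw hn)
  rw [abs_le] at h1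
  have hpi := Real.pi_pos
  have h2 : 0 < W / Real.pi := div_pos hW hpi
  have h3 : W / Real.pi * (Real.pi / 2) = W / 2 := by field_simp
  rw [phi_re]
  constructor
  · have := mul_le_mul_of_nonneg_left h1.1 h2.le
    nlinarith
  · have := mul_le_mul_of_nonneg_left h1.2 h2.le
    nlinarith

lemma log_bound {x : ℝ} (hx : 0 < x) (hx2 : x ≤ 2) :
    |Real.log x| ≤ 1 + Real.log (1 + 1 / x) := by
  have h2 : Real.log 2 ≤ 1 := by
    have := Real.log_le_sub_one_of_pos (show (0 : ℝ) < 2 by norm_num)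
    linarith
  have hpos : 0 ≤ Real.log (1 + 1 / x) := Real.log_nonneg (by
    have : 0 < 1 / x := by positivity
    linarith)
  rw [abs_le]
  constructor
  · have h3 : -Real.log x = Real.log (1 / x) := by rw [one_div, Real.log_inv]
    have h4 : Real.log (1 / x) ≤ Real.log (1 + 1 / x) :=
      Real.log_le_log (by positivity) (by linarith)
    linarith
  · have h3 : Real.log x ≤ Real.log 2 := Real.log_le_log hx hx2
    linarith

lemma im_bound {W : ℝ} (hW : 0 < W) {w : ℂ} (hw : w ≠ 1) (hw' : w ≠ -1) (hn : ‖w‖ ≤ 1) :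
    1 + |(phi W w).im| ≤ (1 + 2 * (W / Real.pi)) *
      (1 + Real.log (1 + 1 / ‖1 + w‖) + Real.log (1 + 1 / ‖1 - w‖)) := by
  have hpi := Real.pi_pos
  have h2 : 0 < W / Real.pi := div_pos hW hpi
  have ha : 0 < ‖1 + w‖ := norm_pos_iff.2 (one_add_ne hw')
  have hb : 0 < ‖1 - w‖ := norm_pos_iff.2 (one_sub_ne hw)
  have ha2 : ‖1 + w‖ ≤ 2 := by
    refine (norm_add_le _ _).trans ?_
    rw [norm_one]; linarith
  have hb2 : ‖1 - w‖ ≤ 2 := by
    refine (norm_sub_le _ _).trans ?_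
    rw [norm_one]; linarith
  have h3 := log_bound ha ha2
  have h4 := log_bound hb hb2
  have hA : 0 ≤ Real.log (1 + 1 / ‖1 + w‖) := Real.log_nonneg (by
    have : 0 < 1 / ‖1 + w‖ := by positivity
    linarith)
  have hB : 0 ≤ Real.log (1 + 1 / ‖1 - w‖) := Real.log_nonneg (by
    have : 0 < 1 / ‖1 - w‖ := by positivity
    linarith)
  rw [phi_im, abs_neg, abs_mul, abs_of_pos h2]
  have h5 : |Real.log ‖quo w‖| ≤ |Real.log ‖1 + w‖| + |Real.log ‖1 - w‖| := by
    unfold quo
    rw [norm_div, Real.log_div ha.ne' hb.ne']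
    exact abs_sub _ _
  have h6 : |Real.log ‖quo w‖| ≤
      2 + Real.log (1 + 1 / ‖1 + w‖) + Real.log (1 + 1 / ‖1 - w‖) := by linarith
  have h7 := mul_le_mul_of_nonneg_left h6 h2.le
  nlinarith [mul_nonneg h2.le hA, mul_nonneg h2.le hB]

/-- the angle -/
noncomputable def th (W y : ℝ) : ℝ := 2 * Real.arctan (Real.exp (Real.pi * y / W))

lemma exp_arctan (E : ℝ) (σ : ℝ) (hσ : σ = 1 ∨ σ = -1) :
    Complex.exp (((σ * (2 * Real.arctan E) : ℝ) : ℂ) * Complex.I) * (1 - σ * E * Complex.I) =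
      1 + σ * E * Complex.I := by
  obtain ⟨t, ht⟩ : ∃ t, t = Real.arctan E := ⟨_, rfl⟩
  rw [← ht]
  have hc : 0 < Real.cos t := by
    rw [ht]
    exact Real.cos_arctan_pos _
  have htan : Real.tan t = E := by rw [ht, Real.tan_arctan]
  have hs : Real.sin t = E * Real.cos t := by
    rw [Real.tan_eq_sin_div_cos, div_eq_iff hc.ne'] at htan
    linarith
  have e1 : Complex.exp (((σ * (2 * t) : ℝ) : ℂ) * Complex.I) =
      (Real.cos t + σ * Real.sin t * Complex.I) ^ 2 := by
    have e2 : Complex.exp (((σ * (2 * t) : ℝ) : ℂ) * Complex.I) =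
        Complex.exp (((σ * t : ℝ) : ℂ) * Complex.I) ^ 2 := by
      rw [← Complex.exp_nat_mul]
      congr 1
      push_cast
      ring
    rw [e2, Complex.exp_mul_I, ← Complex.ofReal_cos, ← Complex.ofReal_sin]
    rcases hσ with h | h
    · rw [h]; simp
    · rw [h, neg_one_mul, Real.cos_neg, Real.sin_neg]; simp
  have h1 : (Real.cos t : ℂ) ^ 2 + (Real.sin t : ℂ) ^ 2 = 1 := by
    exact_mod_cast Real.cos_sq_add_sin_sq t
  have hsC : (Real.sin t : ℂ) = E * Real.cos t := by exact_mod_cast hs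
  have hσ2 : (σ : ℂ) ^ 2 = 1 := by
    rcases hσ with h | h
    · rw [h]; simp
    · rw [h]; simp
  have hI := Complex.I_sq
  have h2 : (Real.cos t : ℂ) ^ 2 * (1 + E ^ 2) = 1 := by
    rw [hsC] at h1
    linear_combination h1
  rw [e1, hsC]
  have h3 : (1 + σ * E * Complex.I) * (1 - σ * E * Complex.I) = 1 + (E : ℂ) ^ 2 := by
    linear_combination (-(σ : ℂ) ^ 2 * E ^ 2) * hI + (E : ℂ) ^ 2 * hσ2
  have h4 : ((Real.cos t : ℂ) + σ * (E * Real.cos t) * Complex.I) ^ 2 * (1 - σ * E * Complex.I) =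
      (Real.cos t : ℂ) ^ 2 * ((1 + σ * E * Complex.I) * (1 - σ * E * Complex.I)) *
        (1 + σ * E * Complex.I) := by ring
  rw [h4, h3, h2, one_mul]

lemma one_sub_E_ne (E σ : ℝ) : (1 : ℂ) - σ * E * Complex.I ≠ 0 := by
  intro h
  have := congrArg Complex.re h
  simp at this

lemma quo_exp {E : ℝ} (hE : 0 < E) (σ : ℝ) (hσ : σ = 1 ∨ σ = -1) :
    quo (Complex.exp (((σ * (2 * Real.arctan E) : ℝ) : ℂ) * Complex.I)) =
      σ * Complex.I * (1 / E) := by
  have h := exp_arctan E σ hσ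
  obtain ⟨w, hw⟩ : ∃ w, w = Complex.exp (((σ * (2 * Real.arctan E) : ℝ) : ℂ) * Complex.I) :=
    ⟨_, rfl⟩
  rw [← hw] at h ⊢
  have h1 := one_sub_E_ne E σ
  have hEC : (E : ℂ) ≠ 0 := by exact_mod_cast hE.ne'
  have hσ0 : (σ : ℂ) ≠ 0 := by
    rcases hσ with h | h
    · rw [h]; simp
    · rw [h]; simp
  have hσ2 : (σ : ℂ) ^ 2 = 1 := by
    rcases hσ with h | h
    · rw [h]; simp
    · rw [h]; simp
  have h2 : w = (1 + σ * E * Complex.I) / (1 - σ * E * Complex.I) := by
    rw [eq_div_iff h1]; exact h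
  have h3 : 1 - w = -2 * σ * E * Complex.I / (1 - σ * E * Complex.I) := by
    rw [h2]; field_simp; ring
  have h4 : 1 + w = 2 / (1 - σ * E * Complex.I) := by
    rw [h2]; field_simp; ring
  have h5 : (-2 * σ * E * Complex.I : ℂ) ≠ 0 :=
    mul_ne_zero (mul_ne_zero (mul_ne_zero (by norm_num) hσ0) hEC) Complex.I_ne_zero
  unfold quo
  rw [h3, h4, div_div_div_cancel_right₀ h1, div_eq_iff h5]
  have hI := Complex.I_sq
  field_simp
  linear_combination ((σ : ℂ) ^ 2) * hI - hσ2

lemma log_val (x : ℝ) (σ : ℝ) (hσ : σ = 1 ∨ σ = -1) :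
    Complex.log (σ * Complex.I * (1 / (Real.exp x : ℝ))) =
      ((σ * (Real.pi / 2) : ℝ) : ℂ) * Complex.I - x := by
  have hpi := Real.pi_pos
  have h1 : (σ : ℂ) * Complex.I * (1 / (Real.exp x : ℝ)) =
      Complex.exp (((σ * (Real.pi / 2) : ℝ) : ℂ) * Complex.I - x) := by
    rw [Complex.exp_sub, Complex.ofReal_exp, mul_one_div]
    congr 1
    rcases hσ with h | h
    · rw [h, one_mul, Complex.ofReal_one, one_mul]
      push_cast
      rw [Complex.exp_pi_div_two_mul_I]
    · rw [h]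
      push_cast
      rw [Complex.exp_mul_I]
      simp [Complex.cos_neg, Complex.sin_neg]
  rw [h1, Complex.log_exp]
  · rcases hσ with h | h
    · rw [h]; simp; linarith
    · rw [h]; simp; linarith
  · rcases hσ with h | h
    · rw [h]; simp; linarith
    · rw [h]; simp; linarith

lemma phi_exp {W : ℝ} (hW : 0 < W) (y : ℝ) (σ : ℝ) (hσ : σ = 1 ∨ σ = -1) :
    phi W (Complex.exp (((σ * th W y : ℝ) : ℂ) * Complex.I)) =
      (((1 + σ) / 2 * W : ℝ) : ℂ) + y * Complex.I := by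
  unfold phi th
  rw [quo_exp (Real.exp_pos _) σ hσ, log_val _ σ hσ]
  have hpi : (Real.pi : ℂ) ≠ 0 := by exact_mod_cast Real.pi_ne_zero
  have hWC : (W : ℂ) ≠ 0 := by exact_mod_cast hW.ne'
  push_cast
  have hI := Complex.I_sq
  field_simp
  linear_combination (-(σ : ℂ) * W) * hI

/-! ### the substitution -/

lemma th_deriv {W : ℝ} (_hW : 0 < W) (y : ℝ) :
    HasDerivAt (th W) (Real.pi / W / Real.cosh (Real.pi * y / W)) y := by
  have h0 : HasDerivAt (fun y : ℝ => Real.pi * y / W) (Real.pi / W) y := by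
    have := ((hasDerivAt_id y).const_mul Real.pi).div_const W
    simpa using this
  have h1 := h0.exp
  have h2 := (h1.arctan).const_mul 2
  refine h2.congr_deriv ?_
  rw [Real.cosh_eq, Real.exp_neg]
  have h3 := Real.exp_pos (Real.pi * y / W)
  generalize Real.exp (Real.pi * y / W) = E at h3 ⊢
  field_simp
  ring

lemma th_image {W : ℝ} (hW : 0 < W) : th W '' univ = Ioo 0 Real.pi := by
  have hpi := Real.pi_pos
  ext θ
  rw [image_univ, mem_range, mem_Ioo]
  unfold th
  constructor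
  · rintro ⟨y, rfl⟩
    have h1 := Real.arctan_lt_pi_div_two (Real.exp (Real.pi * y / W))
    have h2 := Real.arctan_pos.2 (Real.exp_pos (Real.pi * y / W))
    constructor <;> linarith
  · rintro ⟨h1, h2⟩
    have h3 : 0 < Real.tan (θ / 2) := Real.tan_pos_of_pos_of_lt_pi_div_two (by linarith) (by linarith)
    refine ⟨W / Real.pi * Real.log (Real.tan (θ / 2)), ?_⟩
    have h4 : Real.pi * (W / Real.pi * Real.log (Real.tan (θ / 2))) / W =
        Real.log (Real.tan (θ / 2)) := by field_simp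
    rw [h4, Real.exp_log h3, Real.arctan_tan (by linarith) (by linarith)]
    ring

lemma th_inj {W : ℝ} (hW : 0 < W) : InjOn (th W) univ := by
  intro y _ z _ h
  unfold th at h
  have h1 : Real.arctan (Real.exp (Real.pi * y / W)) = Real.arctan (Real.exp (Real.pi * z / W)) := by
    linarith
  have h2 := Real.exp_injective (Real.arctan_injective h1)
  have hpi := Real.pi_pos
  field_simp at h2
  exact h2

/-- the substitution for one half of the circle -/
lemma half {W : ℝ} (hW : 0 < W) (g : ℝ → ℝ) (G : ℝ → ℝ) (hG : ∀ y, g (th W y) = G y)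
    (hint : IntervalIntegrable g volume 0 Real.pi) :
    Integrable (fun y : ℝ => G y / Real.cosh (Real.pi * y / W)) ∧
    ∫ θ in (0 : ℝ)..Real.pi, g θ = Real.pi / W * ∫ y : ℝ, G y / Real.cosh (Real.pi * y / W) := by
  have hpi := Real.pi_pos
  have hpw : Real.pi / W ≠ 0 := by positivity
  have hd : ∀ y ∈ (univ : Set ℝ), HasDerivWithinAt (th W)
      (Real.pi / W / Real.cosh (Real.pi * y / W)) univ y :=
    fun y _ => (th_deriv hW y).hasDerivWithinAt
  have h2 : (fun y : ℝ => |Real.pi / W / Real.cosh (Real.pi * y / W)| • g (th W y)) =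
      fun y : ℝ => Real.pi / W * (G y / Real.cosh (Real.pi * y / W)) := by
    funext y
    have hc := Real.cosh_pos (Real.pi * y / W)
    rw [abs_of_pos (by positivity), hG, smul_eq_mul]
    ring
  constructor
  · have hIoo : IntegrableOn g (th W '' univ) := by
      rw [th_image hW]
      rw [intervalIntegrable_iff_integrableOn_Ioo_of_le (by linarith)] at hint
      exact hint
    have h1 := (integrableOn_image_iff_integrableOn_abs_deriv_smul MeasurableSet.univ hd
      (th_inj hW) _).1 hIoo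
    rw [integrableOn_univ, h2] at h1
    exact (integrable_const_mul_iff (isUnit_iff_ne_zero.2 hpw) _).1 h1
  · rw [intervalIntegral.integral_of_le (by linarith), integral_Ioc_eq_integral_Ioo,
      ← th_image hW, integral_image_eq_integral_abs_deriv_smul MeasurableSet.univ hd
        (th_inj hW) g, setIntegral_univ, h2, integral_const_mul]

theorem strip (h : ∀ (F : ℂ → ℂ) (A : ℝ),
      AnalyticOnNhd ℂ F (Metric.closedBall 0 1 \ {-1, 1}) →
      (∀ w ∈ Metric.closedBall (0 : ℂ) 1 \ {-1, 1},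
        ‖F w‖ ≤ Real.exp (A * (1 + Real.log (1 + 1 / ‖1 + w‖) + Real.log (1 + 1 / ‖1 - w‖)))) →
      F 0 ≠ 0 →
      IntervalIntegrable (fun θ : ℝ => Real.log ‖F (Complex.exp (θ * Complex.I))‖) volume
        (-Real.pi) Real.pi ∧
      Real.log ‖F 0‖ ≤
        1 / (2 * Real.pi) * ∫ θ in (-Real.pi)..Real.pi, Real.log ‖F (Complex.exp (θ * Complex.I))‖)
    (f : ℂ → ℂ) (A W : ℝ) (hW : 0 < W)
    (hf : AnalyticOnNhd ℂ f {s : ℂ | 0 ≤ s.re ∧ s.re ≤ W})
    (hbd : ∀ s : ℂ, 0 ≤ s.re → s.re ≤ W → ‖f s‖ ≤ Real.exp (A * (1 + |s.im|)))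
    (hf0 : f (W / 2) ≠ 0) :
    Integrable (fun y : ℝ => Real.log ‖f (y * Complex.I)‖ / Real.cosh (Real.pi * y / W)) ∧
    Integrable (fun y : ℝ => Real.log ‖f (W + y * Complex.I)‖ / Real.cosh (Real.pi * y / W)) ∧
    Real.log ‖f (W / 2)‖ ≤ 1 / (2 * W) * ∫ y : ℝ,
      (Real.log ‖f (y * Complex.I)‖ + Real.log ‖f (W + y * Complex.I)‖) /
        Real.cosh (Real.pi * y / W) := by
  have hpi := Real.pi_pos
  have hne : ∀ w ∈ Metric.closedBall (0 : ℂ) 1 \ {-1, 1}, w ≠ 1 ∧ w ≠ -1 ∧ ‖w‖ ≤ 1 := by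
    intro w hw
    rw [Set.mem_sdiff, Metric.mem_closedBall, dist_zero_right, mem_insert_iff,
      mem_singleton_iff, not_or] at hw
    exact ⟨hw.2.2, hw.2.1, hw.1⟩
  have hphi0 : phi W 0 = W / 2 := by
    unfold phi quo
    simp
  obtain ⟨hint, hle⟩ := h (fun w => f (phi W w)) (|A| * (1 + 2 * (W / Real.pi))) (by
      intro w hw
      obtain ⟨h1, h2, h3⟩ := hne w hw
      exact AnalyticAt.fun_comp (hf _ (phi_re_mem hW h1 h3)) (phi_an W h1 h2 h3)) (by
      intro w hw
      obtain ⟨h1, h2, h3⟩ := hne w hw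
      obtain ⟨h4, h5⟩ := phi_re_mem hW h1 h3
      refine (hbd _ h4 h5).trans (Real.exp_le_exp.2 ?_)
      have h6 := im_bound hW h1 h2 h3
      calc A * (1 + |(phi W w).im|) ≤ |A| * (1 + |(phi W w).im|) := by
            gcongr
            exact le_abs_self A
        _ ≤ |A| * ((1 + 2 * (W / Real.pi)) *
            (1 + Real.log (1 + 1 / ‖1 + w‖) + Real.log (1 + 1 / ‖1 - w‖))) := by
            gcongr
        _ = _ := by ring) (by
      simp only [hphi0]
      exact hf0)
  simp only [hphi0] at hle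
  obtain ⟨g, hg⟩ : ∃ g : ℝ → ℝ, g = fun θ : ℝ =>
    Real.log ‖f (phi W (Complex.exp (θ * Complex.I)))‖ := ⟨_, rfl⟩
  rw [← hg] at hint
  have hle' : Real.log ‖f (W / 2)‖ ≤ 1 / (2 * Real.pi) * ∫ θ in (-Real.pi)..Real.pi, g θ := by
    rw [hg]; exact hle
  have hint1 : IntervalIntegrable g volume 0 Real.pi :=
    hint.mono_set (by
      rw [uIcc_of_le (by linarith), uIcc_of_le (by linarith)]
      exact Icc_subset_Icc (by linarith) le_rfl)
  have hint2 : IntervalIntegrable g volume (-Real.pi) 0 :=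
    hint.mono_set (by
      rw [uIcc_of_le (by linarith), uIcc_of_le (by linarith)]
      exact Icc_subset_Icc le_rfl (by linarith))
  have hint3 : IntervalIntegrable (fun θ => g (-θ)) volume 0 Real.pi := by
    have h1 := (IntervalIntegrable.iff_comp_neg (f := g)).1 hint2
    rw [neg_neg, neg_zero] at h1
    exact h1.symm
  obtain ⟨a1, a2⟩ := half hW g (fun y => Real.log ‖f (W + y * Complex.I)‖) (by
    intro y
    rw [hg]
    have := phi_exp hW y 1 (Or.inl rfl)
    rw [one_mul] at this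
    simp only [this]
    norm_num) hint1
  obtain ⟨b1, b2⟩ := half hW (fun θ => g (-θ)) (fun y => Real.log ‖f (y * Complex.I)‖) (by
    intro y
    rw [hg]
    have := phi_exp hW y (-1) (Or.inr rfl)
    rw [neg_one_mul] at this
    simp only [this]
    norm_num) hint3
  refine ⟨b1, a1, hle'.trans (le_of_eq ?_)⟩
  have h3 : ∫ θ in (0 : ℝ)..Real.pi, g (-θ) = ∫ θ in (-Real.pi)..0, g θ := by
    rw [intervalIntegral.integral_comp_neg, neg_zero]
  have h4 : ∫ θ in (-Real.pi)..Real.pi, g θ =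
      (∫ θ in (-Real.pi)..0, g θ) + ∫ θ in (0 : ℝ)..Real.pi, g θ :=
    (intervalIntegral.integral_add_adjacent_intervals hint2 hint1).symm
  rw [h4, ← h3, a2, b2, ← mul_add, ← integral_add b1 a1]
  have h5 : (fun y : ℝ => Real.log ‖f (y * Complex.I)‖ / Real.cosh (Real.pi * y / W) +
      Real.log ‖f (W + y * Complex.I)‖ / Real.cosh (Real.pi * y / W)) = fun y : ℝ =>
      (Real.log ‖f (y * Complex.I)‖ + Real.log ‖f (W + y * Complex.I)‖) /
        Real.cosh (Real.pi * y / W) := by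
    funext y; ring
  rw [h5, ← mul_assoc]
  congr 1
  field_simp

/-- **Jensen's inequality in a strip from the disc.** -/
theorem main (h : Pool.Agent.N804.GM.S_DISC2) : Pool.Agent.N804.GM.S_STRIP :=
  fun f A W hW hf hbd hf0 => strip h f A W hW hf hbd hf0

end Pool.Agent.N491.SC2
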